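import Pool.Agent.Lib_helper99.Burnside.Conv

set_option autoImplicit false

namespace Pool.Agent.Results.MP_ce44ee_pr.RapidMixing

variable {n : ℕ}

/-- The number of permutations of the vertices that fix the graph `γ`. -/
noncomputable def stab (γ : SimpleGraph (Fin n)) : ℕ :=
  {τ : Equiv.Perm (Fin n) | SimpleGraph.comap (⇑τ) γ = γ}.ncard

/-- The number of graphs on `Fin n` fixed by the permutation `σ`. -/
noncomputable def fixed (σ : Equiv.Perm (Fin n)) : ℕ :=
  {δ : SimpleGraph (Fin n) | SimpleGraph.comap (⇑σ) δ = δ}.ncard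

/-- One step of the orbit-sampling process: from `γ` choose `σ` uniformly in the stabiliser of `γ`,
then the next graph `β` uniformly among the graphs fixed by `σ`; this is the probability of `β`. -/
noncomputable def step (γ β : SimpleGraph (Fin n)) : ℝ :=
  ∑ᶠ σ ∈ {σ : Equiv.Perm (Fin n) |
      SimpleGraph.comap (⇑σ) γ = γ ∧ SimpleGraph.comap (⇑σ) β = β},
    1 / ((stab γ : ℝ) * (fixed σ : ℝ))

open scoped Classical in
/-- The law `P_n^t(α, ·)` of the process at time `t`, started at the graph `α`. -/
noncomputable def law (α : SimpleGraph (Fin n)) : ℕ → SimpleGraph (Fin n) → ℝ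
  | 0 => fun β => if β = α then 1 else 0
  | t + 1 => fun β => ∑ᶠ γ : SimpleGraph (Fin n), law α t γ * step γ β

/-- The stationary distribution, proportional to the order of the stabiliser. -/
noncomputable def stationary (β : SimpleGraph (Fin n)) : ℝ :=
  (stab β : ℝ) / ∑ᶠ γ : SimpleGraph (Fin n), (stab γ : ℝ)

/-- The total variation distance between the law at time `t` and the stationary distribution. -/
noncomputable def tv (α : SimpleGraph (Fin n)) (t : ℕ) : ℝ :=
  (1 / 2 : ℝ) * ∑ᶠ β : SimpleGraph (Fin n), |law α t β - stationary β|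

/-- **The orbit-sampling process on graphs is rapidly mixing.**  There is a constant `C` such that
for every `n`, every starting graph and every accuracy `ε ∈ (0,1)`, the total variation distance to
stationarity is at most `ε` from time `C (n + 1) (1 + log (1/ε))` on. -/
theorem result : ∃ C : ℝ, 0 < C ∧ ∀ (n : ℕ) (α : SimpleGraph (Fin n)) (ε : ℝ), 0 < ε → ε < 1 →
    ∀ t : ℕ, C * ((n : ℝ) + 1) * (1 + Real.log (1 / ε)) ≤ t → tv α t ≤ ε := by
  obtain ⟨C, hC0, hC⟩ := Pool.Agent.Lib_helper99.Burnside.rapid
  refine ⟨C, hC0, fun n α ε h0 h1 t ht => ?_⟩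
  have hch : Pool.Agent.Lib_helper99.Burnside.IsChain (Fin n) (law α) :=
    Pool.Agent.Lib_helper99.Burnside.chain_of α (law α) (by simp [law])
      (fun β hβ => by simp [law, hβ]) (fun t β => rfl)
  have h2 := hC (Fin n) (law α) hch ε h0 h1 t (by rw [Fintype.card_fin]; exact ht)
  rw [← Pool.Agent.Lib_helper99.Burnside.dTV_eq] at h2
  exact h2

end Pool.Agent.Results.MP_ce44ee_pr.RapidMixing
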